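import Mathlib

/-!
# A spectrahedral cone that is not projectionally exposed
-/

open Matrix

namespace Pool.Agent.Results.MP_55559b_an.NotPExposed

/-- The spectrahedral cone defined by the symmetric matrices `A i`. -/
def spectrahedralCone {n m : ℕ} (A : Fin n → Matrix (Fin m) (Fin m) ℝ) : Set (Fin n → ℝ) :=
  {x | (∑ i, x i • A i).PosSemidef}

/-- `F` is a face of the closed convex cone `K`. -/
structure IsFace {n : ℕ} (K F : Set (Fin n → ℝ)) : Prop where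
  closed : IsClosed F
  convex : Convex ℝ F
  zero_mem : (0 : Fin n → ℝ) ∈ F
  smul_mem : ∀ c : ℝ, 0 ≤ c → ∀ x ∈ F, c • x ∈ F
  subset : F ⊆ K
  face : ∀ x ∈ K, ∀ y ∈ K, x + y ∈ F → x ∈ F ∧ y ∈ F

/-- The face `F` of `K` is projectionally exposed: it is the image of `K` under a (not necessarily
orthogonal) projection. -/
def ProjExposed {n : ℕ} (K F : Set (Fin n → ℝ)) : Prop :=
  ∃ P : (Fin n → ℝ) →ₗ[ℝ] (Fin n → ℝ), P ∘ₗ P = P ∧ P '' K = F

/-- The five matrices. -/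
def A : Fin 5 → Matrix (Fin 6) (Fin 6) ℝ :=
  ![!![-1, 0, 0, 0, 0, 0; 0, 1, 0, 0, 0, 0; 0, 0, 0, 0, 0, 0; 0, 0, 0, 0, 0, 0;
      0, 0, 0, 0, 0, 0; 0, 0, 0, 0, 0, 0],
    !![0, 0, 0, 0, 0, 0; 0, 0, 0, 0, 0, 0; 0, 0, -1, 0, 0, 0; 0, 0, 0, 1, 0, 0;
      0, 0, 0, 0, 0, 0; 0, 0, 0, 0, 0, 0],
    !![1, 0, 0, 0, 0, 0; 0, 1, 0, 0, 0, 0; 0, 0, 1, 0, 0, 0; 0, 0, 0, 1, 0, 0;
      0, 0, 0, 0, 0, 0; 0, 0, 0, 0, 0, 1],
    !![0, 0, 0, 0, 0, 0; 0, 0, 0, 0, 0, 0; 0, 0, 0, 0, 0, 0; 0, 0, 0, 0, 0, 0;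
      0, 0, 0, 0, 1, 0; 0, 0, 0, 0, 0, 0],
    !![1, 0, 0, 0, 0, 0; 0, 0, 0, 0, 0, 0; 0, 0, 0, 0, 0, 0; 0, 0, 0, 0, 0, 0;
      0, 0, 0, 0, 0, 1; 0, 0, 0, 0, 1, 0]]

lemma A_symm (i : Fin 5) : (A i).IsSymm := by
  fin_cases i <;> (ext j k; fin_cases j <;> fin_cases k <;> rfl)

lemma sum_A (x : Fin 5 → ℝ) : ∑ i, x i • A i =
    !![x 2 - x 0 + x 4, 0, 0, 0, 0, 0; 0, x 2 + x 0, 0, 0, 0, 0; 0, 0, x 2 - x 1, 0, 0, 0;
      0, 0, 0, x 2 + x 1, 0, 0; 0, 0, 0, 0, x 3, x 4; 0, 0, 0, 0, x 4, x 2] := by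
  rw [Fin.sum_univ_five]
  ext j k
  fin_cases j <;> fin_cases k <;> simp [A] <;> ring

lemma quad (x : Fin 5 → ℝ) (a : Fin 6 → ℝ) :
    star a ⬝ᵥ ((∑ i, x i • A i) *ᵥ a) =
      (x 2 - x 0 + x 4) * a 0 ^ 2 + (x 2 + x 0) * a 1 ^ 2 + (x 2 - x 1) * a 2 ^ 2 +
      (x 2 + x 1) * a 3 ^ 2 + (x 3 * a 4 ^ 2 + 2 * x 4 * (a 4 * a 5) + x 2 * a 5 ^ 2) := by
  rw [sum_A]
  simp [Matrix.mulVec, dotProduct, Fin.sum_univ_six]
  ring

lemma mem_iff (x : Fin 5 → ℝ) : x ∈ spectrahedralCone A ↔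
    (0 ≤ x 2 - x 0 + x 4 ∧ 0 ≤ x 2 + x 0 ∧ 0 ≤ x 2 - x 1 ∧ 0 ≤ x 2 + x 1) ∧
      (0 ≤ x 3 ∧ 0 ≤ x 2 ∧ x 4 ^ 2 ≤ x 3 * x 2) := by
  rw [spectrahedralCone, Set.mem_ofPred_eq, Matrix.posSemidef_iff_dotProduct_mulVec]
  have hherm : (∑ i, x i • A i).IsHermitian := by
    rw [Matrix.IsHermitian, Matrix.conjTranspose_eq_transpose_of_trivial, Matrix.transpose_sum]
    apply Finset.sum_congr rfl
    intro i _
    rw [Matrix.transpose_smul, A_symm i]
  constructor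
  · rintro ⟨-, h⟩
    have h' : ∀ a : Fin 6 → ℝ, 0 ≤ (x 2 - x 0 + x 4) * a 0 ^ 2 + (x 2 + x 0) * a 1 ^ 2 +
        (x 2 - x 1) * a 2 ^ 2 + (x 2 + x 1) * a 3 ^ 2 +
        (x 3 * a 4 ^ 2 + 2 * x 4 * (a 4 * a 5) + x 2 * a 5 ^ 2) := fun a => by
      rw [← quad]; exact h a
    have h0 := h' ![1, 0, 0, 0, 0, 0]
    have h1 := h' ![0, 1, 0, 0, 0, 0]
    have h2 := h' ![0, 0, 1, 0, 0, 0]
    have h3 := h' ![0, 0, 0, 1, 0, 0]
    have h4 := h' ![0, 0, 0, 0, 1, 0]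
    have h5 := h' ![0, 0, 0, 0, 0, 1]
    have h6 := h' ![0, 0, 0, 0, x 2, -x 4]
    have h7 := h' ![0, 0, 0, 0, -x 4, x 3]
    have h8 := h' ![0, 0, 0, 0, 1, -x 4]
    have h9 := h' ![0, 0, 0, 0, 1, x 4]
    simp [Matrix.cons_val_zero, Matrix.cons_val_one] at h0 h1 h2 h3 h4 h5 h6 h7 h8 h9
    refine ⟨⟨by linarith, by linarith, by linarith, by linarith⟩, h4, h5, ?_⟩
    rcases eq_or_lt_of_le h5 with hz | hz
    · rw [← hz] at h8 ⊢
      rcases eq_or_lt_of_le h4 with hu | hu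
      · rw [← hu] at h8 ⊢; nlinarith
      · rw [← hz] at h7
        have : x 3 * x 4 ^ 2 ≤ 0 := by nlinarith
        have h10 : x 4 ^ 2 ≤ 0 := by
          by_contra hcon
          push Not at hcon
          nlinarith [mul_pos hu hcon]
        linarith
    · by_contra hcon
      push Not at hcon
      nlinarith [mul_pos hz (sub_pos.2 hcon)]
  · rintro ⟨⟨h1, h2, h3, h4⟩, h5, h6, h7⟩
    refine ⟨hherm, fun a => ?_⟩
    rw [quad]
    have hq : 0 ≤ x 3 * a 4 ^ 2 + 2 * x 4 * (a 4 * a 5) + x 2 * a 5 ^ 2 := by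
      rcases eq_or_lt_of_le h5 with hu | hu
      · rw [← hu] at h7 ⊢
        have : x 4 = 0 := by nlinarith [sq_nonneg (x 4)]
        rw [this]
        have := mul_nonneg h6 (sq_nonneg (a 5))
        nlinarith
      · have h8 : 0 ≤ x 3 * (x 3 * a 4 ^ 2 + 2 * x 4 * (a 4 * a 5) + x 2 * a 5 ^ 2) := by
          have e : x 3 * (x 3 * a 4 ^ 2 + 2 * x 4 * (a 4 * a 5) + x 2 * a 5 ^ 2) =
              (x 3 * a 4 + x 4 * a 5) ^ 2 + (x 3 * x 2 - x 4 ^ 2) * a 5 ^ 2 := by ring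
          rw [e]
          have := mul_nonneg (sub_nonneg.2 h7) (sq_nonneg (a 5))
          positivity
        exact nonneg_of_mul_nonneg_right h8 hu
    have := mul_nonneg h1 (sq_nonneg (a 0))
    have := mul_nonneg h2 (sq_nonneg (a 1))
    have := mul_nonneg h3 (sq_nonneg (a 2))
    have := mul_nonneg h4 (sq_nonneg (a 3))
    linarith

/-- The face. -/
def F : Set (Fin 5 → ℝ) := {x | x ∈ spectrahedralCone A ∧ x 3 = 0}

lemma isClosed_cone : IsClosed (spectrahedralCone A) := by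
  have : spectrahedralCone A = {x : Fin 5 → ℝ |
    (0 ≤ x 2 - x 0 + x 4 ∧ 0 ≤ x 2 + x 0 ∧ 0 ≤ x 2 - x 1 ∧ 0 ≤ x 2 + x 1) ∧
      (0 ≤ x 3 ∧ 0 ≤ x 2 ∧ x 4 ^ 2 ≤ x 3 * x 2)} := by
    ext x
    exact mem_iff x
  rw [this]
  refine IsClosed.and ?_ ?_
  · refine IsClosed.and (isClosed_le continuous_const (by fun_prop)) (IsClosed.and
      (isClosed_le continuous_const (by fun_prop)) (IsClosed.and
      (isClosed_le continuous_const (by fun_prop)) (isClosed_le continuous_const (by fun_prop))))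
  · refine IsClosed.and (isClosed_le continuous_const (by fun_prop)) (IsClosed.and
      (isClosed_le continuous_const (by fun_prop)) (isClosed_le (by fun_prop) (by fun_prop)))

lemma cone_add {x y : Fin 5 → ℝ} (hx : x ∈ spectrahedralCone A) (hy : y ∈ spectrahedralCone A) :
    x + y ∈ spectrahedralCone A := by
  rw [spectrahedralCone, Set.mem_ofPred_eq] at *
  have : ∑ i, (x + y) i • A i = (∑ i, x i • A i) + ∑ i, y i • A i := by
    rw [← Finset.sum_add_distrib]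
    exact Finset.sum_congr rfl fun i _ => by rw [Pi.add_apply, add_smul]
  rw [this]
  exact hx.add hy

lemma cone_smul {x : Fin 5 → ℝ} (hx : x ∈ spectrahedralCone A) {c : ℝ} (hc : 0 ≤ c) :
    c • x ∈ spectrahedralCone A := by
  rw [spectrahedralCone, Set.mem_ofPred_eq] at *
  have : ∑ i, (c • x) i • A i = c • ∑ i, x i • A i := by
    rw [Finset.smul_sum]
    exact Finset.sum_congr rfl fun i _ => by rw [Pi.smul_apply, smul_eq_mul, mul_smul]
  rw [this]
  exact hx.smul hc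

lemma isFace_F : IsFace (spectrahedralCone A) F where
  closed := isClosed_cone.and (isClosed_eq (by fun_prop) continuous_const)
  convex := by
    rintro x ⟨hx, hx3⟩ y ⟨hy, hy3⟩ a b ha hb _
    refine ⟨cone_add (cone_smul hx ha) (cone_smul hy hb), ?_⟩
    simp [hx3, hy3]
  zero_mem := by
    refine ⟨?_, rfl⟩
    rw [mem_iff]; simp
  smul_mem := by
    rintro c hc x ⟨hx, hx3⟩
    exact ⟨cone_smul hx hc, by simp [hx3]⟩
  subset := fun x hx => hx.1
  face := by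
    rintro x hx y hy ⟨-, h3⟩
    have h1 := ((mem_iff x).1 hx).2.1
    have h2 := ((mem_iff y).1 hy).2.1
    rw [Pi.add_apply] at h3
    exact ⟨⟨hx, by linarith⟩, ⟨hy, by linarith⟩⟩

lemma not_projExposed : ¬ ProjExposed (spectrahedralCone A) F := by
  rintro ⟨P, hPP, hPK⟩
  -- `P` is the identity on `F`
  have hfix : ∀ x ∈ F, P x = x := by
    intro x hx
    rw [← hPK] at hx
    obtain ⟨k, -, rfl⟩ := hx
    exact LinearMap.congr_fun hPP k
  have hmem : ∀ x ∈ spectrahedralCone A, P x ∈ F := fun x hx => by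
    rw [← hPK]; exact ⟨x, hx, rfl⟩
  -- unit vectors
  set α := P ![0, 0, 0, 1, 0] with hα
  set β := P ![0, 0, 0, 0, 1] with hβ
  have hF : ∀ x y z : ℝ, |x| ≤ z → |y| ≤ z → P ![x, y, z, 0, 0] = ![x, y, z, 0, 0] := by
    intro x y z hx hy
    have hz := (abs_nonneg x).trans hx
    rw [abs_le] at hx hy
    apply hfix
    refine ⟨?_, rfl⟩
    rw [mem_iff]
    simp
    refine ⟨⟨by linarith, by linarith, by linarith, by linarith⟩, hz⟩
  have hspan : ∀ x y z : ℝ, P ![x, y, z, 0, 0] = ![x, y, z, 0, 0] := by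
    intro x y z
    set M := |x| + |y| + |z| with hM
    have h1 := hF 0 0 M (by simp; positivity) (by simp; positivity)
    have h2 := hF x y (z + M)
      (by linarith [neg_abs_le z, abs_nonneg y]) (by linarith [neg_abs_le z, abs_nonneg x])
    have e1 : (![x, y, z, 0, 0] : Fin 5 → ℝ) = ![x, y, z + M, 0, 0] - ![0, 0, M, 0, 0] := by
      ext i; fin_cases i <;> simp
    rw [e1, map_sub, h1, h2]
  have hP : ∀ x y z u v : ℝ, P ![x, y, z, u, v] = ![x, y, z, 0, 0] + u • α + v • β := by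
    intro x y z u v
    have e1 : (![x, y, z, u, v] : Fin 5 → ℝ) = ![x, y, z, 0, 0] + u • ![0, 0, 0, 1, 0] +
        v • ![0, 0, 0, 0, 1] := by
      ext i; fin_cases i <;> simp
    rw [e1, map_add, map_add, map_smul, map_smul, hspan]
  -- the four inequalities
  have hineq : ∀ x y z u v : ℝ, ![x, y, z, u, v] ∈ spectrahedralCone A →
      0 ≤ (z - x) + u * (α 2 - α 0) + v * (β 2 - β 0) ∧
      0 ≤ (z + x) + u * (α 2 + α 0) + v * (β 2 + β 0) ∧
      0 ≤ (z - y) + u * (α 2 - α 1) + v * (β 2 - β 1) ∧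
      0 ≤ (z + y) + u * (α 2 + α 1) + v * (β 2 + β 1) := by
    intro x y z u v h
    have h1 := hmem _ h
    rw [hP] at h1
    set q : Fin 5 → ℝ := ![x, y, z, 0, 0] + u • α + v • β with hq
    have c0 : q 0 = x + u * α 0 + v * β 0 := rfl
    have c1 : q 1 = y + u * α 1 + v * β 1 := rfl
    have c2 : q 2 = z + u * α 2 + v * β 2 := rfl
    obtain ⟨h2, h3⟩ := h1
    rw [mem_iff] at h2
    obtain ⟨⟨g1, g2, g3, g4⟩, -, -, g5⟩ := h2
    rw [h3, zero_mul] at g5
    have g6 := pow_eq_zero_iff (two_ne_zero) |>.1 (le_antisymm g5 (sq_nonneg _))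
    rw [g6, c0, c2] at g1
    rw [c0, c2] at g2
    rw [c1, c2] at g3 g4
    refine ⟨by linarith, by linarith, by linarith, by linarith⟩
  -- a limit argument
  have hlim : ∀ a b c : ℝ, (∀ t : ℝ, |t| ≤ 1 → 0 ≤ t ^ 2 * a + t * b) → b = 0 := by
    intro a b _ h
    by_contra hb
    have hpos : 0 < |a| + |b| + 1 := by positivity
    have hb' : 0 < |b| := abs_pos.2 hb
    have h1 := h (-b / (2 * (|a| + |b| + 1))) (by
      rw [abs_div, abs_neg, abs_of_pos (by positivity : 0 < 2 * (|a| + |b| + 1)),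
        div_le_one (by positivity)]
      linarith [abs_nonneg a])
    have h2 : (-b / (2 * (|a| + |b| + 1))) ^ 2 * a + (-b / (2 * (|a| + |b| + 1))) * b =
        b ^ 2 * (a - 2 * (|a| + |b| + 1)) / (2 * (|a| + |b| + 1)) ^ 2 := by
      field_simp
      ring
    rw [h2] at h1
    have h3 : b ^ 2 * (a - 2 * (|a| + |b| + 1)) < 0 := by
      apply mul_neg_of_pos_of_neg
      · positivity
      · linarith [le_abs_self a, abs_nonneg a]
    have h4 := div_neg_of_neg_of_pos h3 (by positivity : 0 < (2 * (|a| + |b| + 1)) ^ 2)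
    linarith
  have ht2 : ∀ t : ℝ, |t| ≤ 1 → t ^ 2 ≤ 1 := fun t ht => by
    rw [← sq_abs]; exact pow_le_one₀ (abs_nonneg t) ht
  have hβ2 : β 2 + β 0 = 0 := by
    apply hlim (α 2 + α 0) _ 0
    intro t ht
    have := (hineq (-1) 0 1 (t ^ 2) t (by
      rw [mem_iff]
      simp
      rw [abs_le] at ht
      constructor
      · linarith
      · positivity)).2.1
    linarith
  have hβ3 : β 2 - β 1 = 0 := by
    apply hlim (α 2 - α 1) _ 0
    intro t ht
    have := (hineq 0 1 1 (t ^ 2) t (by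
      rw [mem_iff]
      simp
      rw [abs_le] at ht
      constructor
      · linarith
      · positivity)).2.2.1
    linarith
  have hβ4 : β 2 + β 1 = 0 := by
    apply hlim (α 2 + α 1) _ 0
    intro t ht
    have := (hineq 0 (-1) 1 (t ^ 2) t (by
      rw [mem_iff]
      simp
      rw [abs_le] at ht
      constructor
      · linarith
      · positivity)).2.2.2
    linarith
  have hβ1 : β 2 - β 0 - 1 = 0 := by
    apply hlim (α 2 - α 0) _ 0
    intro t ht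
    have := (hineq (1 + t) 0 1 (t ^ 2) t (by
      rw [mem_iff]
      simp
      rw [abs_le] at ht
      constructor
      · linarith
      · positivity)).1
    linarith
  linarith

theorem result : ∃ (n m : ℕ) (A : Fin n → Matrix (Fin m) (Fin m) ℝ),
    (∀ i, (A i).IsSymm) ∧ LinearIndependent ℝ A ∧
      ∃ F : Set (Fin n → ℝ), IsFace (spectrahedralCone A) F ∧
        ¬ ProjExposed (spectrahedralCone A) F := by
  refine ⟨5, 6, A, A_symm, ?_, F, isFace_F, not_projExposed⟩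
  rw [Fintype.linearIndependent_iff]
  intro g hg i
  rw [sum_A] at hg
  have h1 := congrFun (congrFun hg 1) 1
  have h2 := congrFun (congrFun hg 3) 3
  have h3 := congrFun (congrFun hg 5) 5
  have h4 := congrFun (congrFun hg 4) 4
  have h5 := congrFun (congrFun hg 4) 5
  simp at h1 h2 h3 h4 h5
  fin_cases i
  · show g 0 = 0
    linarith
  · show g 1 = 0
    linarith
  · exact h3
  · exact h4
  · exact h5

end Pool.Agent.Results.MP_55559b_an.NotPExposed
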